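import Mathlib
import Pool.Agent.H256.KKS.Dist
import Pool.Graph.R_pool_sql_team_seeded_f72693b1.W393.KKS.Ind

set_option autoImplicit false
set_option linter.unusedSectionVars false

/-!
# Close II₁ factors have subfactors of the same indices (MP_323167_an, Q1: yes)

There is one universal `δ > 0` such that any two II₁ factors `M`, `N` on a Hilbert space `H` (of any
size) with Kadison-Kastler distance `d(M, N) < δ` are *-isomorphic, and for every `d`, if `M` has a
subfactor of Jones index `d`, then so has `N`.  For `d = 2` this answers Q1.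

Idea of the proof.  By amplification and cutting down, one may assume that `M` is in standard form
on `H = L²(M)`, with trace vector `ξ`, and that the commutants are also close (solution of the
derivation problem).  After a further unitary conjugation of `N` by a unitary close to `1`, a masa `A`
of `M` is contained in `N` and its right copy is contained in the commutant of `N`.  Choose operators
`q_a` of `N'` close to the right multiplication by `a ∈ M`.  Then `c(x, a) = [x, q_a] ξ` is almost a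
2-cocycle of `M` with coefficients in `L²(M)`.  Averages of `s* c(s X t, t* Y s*) s` over random
unitary 3 × 3 matrices `s`, `t` show that it is almost the coboundary of a bounded operator `S` on
`L²(M)`, which may be averaged over the unitaries of the masa; by the little Grothendieck inequality
`S` is small after cutting down by a projection of the masa of trace close to one.  Conjugation with
`1 - S` makes `‖[x, q] ξ‖` smaller by a constant factor, and the iteration converges.  In the limit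
one gets an isomorphism of corners `p M p ≅ p N p`, and the traces of `M` and `N` agree on the masa,
so `M ≅ N`.

Definitions.
* `IsTrace M τ`: `τ` is a faithful normal tracial state on `M`.  The normal states of `M ⊆ B(H)` are
  the functionals `x ↦ ∑ₖ ⟪ξₖ, x ξₖ⟫` with `∑ₖ ‖ξₖ‖² = 1`.
* `IsII1Factor M`: `M` has trivial centre, is infinite dimensional and has a faithful normal tracial
  state.
* `kkDist M N`: the Hausdorff distance, in operator norm, of the closed unit balls.
* `IsL2 M τ π Ω`: `(K, π, Ω)` is the GNS representation `L²(M, τ)`.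
* `IsDecomposition M τ P π ξ e`: the Hilbert space `K` of the representation `π` of `M` is, as a left
  `P`-module, the orthogonal direct sum of the submodules generated by the `ξ i`, and
  `⟪ξ i, x ξ i⟫ = τ(x e i)` for `x ∈ P`, where `e i` is a projection of `P`; so the submodule generated
  by `ξ i` is `L²(P) e i`, by `x ξ i ↦ x e i`.
* `HasIndex M τ P d`: the von Neumann dimension of `L²(M, τ)` as a left `P`-module is `d`:
  `L²(M, τ)` is an orthogonal direct sum of modules `L²(P) e i` with `∑ τ(e i) = d`.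
* `HasSubfactorOfIndex M d`: there is a von Neumann subalgebra `P ⊆ M` (with the same unit) with
  trivial centre and `[M : P] = d`.
* `StarIsomorphic M N`: there is a *-isomorphism from `M` onto `N`.
-/

open scoped InnerProductSpace ENNReal

namespace Pool.Agent.Results.MP_323167_an.SubfactorsOfCloseFactors

variable {H : Type} [NormedAddCommGroup H] [InnerProductSpace ℂ H] [CompleteSpace H]

/-- `τ` is a faithful normal tracial state on `M`. -/
structure IsTrace (M : VonNeumannAlgebra H) (τ : M.toStarSubalgebra → ℂ) : Prop where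
  normal : ∃ ξ : ℕ → H, Summable (fun k => ‖ξ k‖ ^ 2) ∧
    ∀ x : M.toStarSubalgebra, τ x = ∑' k, ⟪ξ k, (x : H →L[ℂ] H) (ξ k)⟫_ℂ
  one : τ 1 = 1
  tracial : ∀ x y, τ (x * y) = τ (y * x)
  faithful : ∀ x, τ (star x * x) = 0 → x = 0

/-- The centre of `M` consists of the scalars. -/
def HasTrivialCentre (M : VonNeumannAlgebra H) : Prop :=
  ∀ z ∈ M, (∀ a ∈ M, z * a = a * z) → ∃ c : ℂ, z = c • 1

/-- `M` is a II₁ factor: its centre is trivial, it is infinite dimensional and it has a faithful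
normal tracial state. -/
structure IsII1Factor (M : VonNeumannAlgebra H) : Prop where
  factor : HasTrivialCentre M
  infinite : ¬ FiniteDimensional ℂ M.toStarSubalgebra
  trace : ∃ τ, IsTrace M τ

/-- The closed unit ball of `M`. -/
def unitBall (M : VonNeumannAlgebra H) : Set (H →L[ℂ] H) := {x | x ∈ M ∧ ‖x‖ ≤ 1}

/-- The Kadison-Kastler distance. -/
noncomputable def kkDist (M N : VonNeumannAlgebra H) : ℝ :=
  Metric.hausdorffDist (unitBall M) (unitBall N)

/-- `M` and `N` are *-isomorphic. -/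
def StarIsomorphic (M N : VonNeumannAlgebra H) : Prop :=
  Nonempty (M.toStarSubalgebra ≃⋆ₐ[ℂ] N.toStarSubalgebra)

/-- `(K, π, Ω)` is the GNS representation `L²(M, τ)`. -/
structure IsL2 (M : VonNeumannAlgebra H) (τ : M.toStarSubalgebra → ℂ) {K : Type}
    [NormedAddCommGroup K] [InnerProductSpace ℂ K] [CompleteSpace K]
    (π : M.toStarSubalgebra →⋆ₐ[ℂ] (K →L[ℂ] K)) (Ω : K) : Prop where
  state : ∀ x, ⟪Ω, π x Ω⟫_ℂ = τ x
  cyclic : ∀ v : K, ∀ ε : ℝ, 0 < ε → ∃ x, ‖v - π x Ω‖ ≤ ε

/-- `K` is the orthogonal direct sum of the left `P`-submodules generated by the vectors `ξ i`, and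
the submodule generated by `ξ i` is `L²(P) e i`, where `e i` is a projection of `P`. -/
structure IsDecomposition (M : VonNeumannAlgebra H) (τ : M.toStarSubalgebra → ℂ)
    (P : VonNeumannAlgebra H) {K : Type} [NormedAddCommGroup K] [InnerProductSpace ℂ K]
    [CompleteSpace K] (π : M.toStarSubalgebra →⋆ₐ[ℂ] (K →L[ℂ] K)) {I : Type} (ξ : I → K)
    (e : I → M.toStarSubalgebra) : Prop where
  mem : ∀ i, (e i : H →L[ℂ] H) ∈ P
  projection : ∀ i, star (e i) = e i ∧ e i * e i = e i
  state : ∀ i, ∀ x : M.toStarSubalgebra, (x : H →L[ℂ] H) ∈ P →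
    ⟪ξ i, π x (ξ i)⟫_ℂ = τ (x * e i)
  orthogonal : ∀ i j, i ≠ j → ∀ x : M.toStarSubalgebra, (x : H →L[ℂ] H) ∈ P →
    ⟪ξ i, π x (ξ j)⟫_ℂ = 0
  total : ∀ v : K, (∀ i, ∀ x : M.toStarSubalgebra, (x : H →L[ℂ] H) ∈ P →
    ⟪π x (ξ i), v⟫_ℂ = 0) → v = 0

/-- The von Neumann dimension of `L²(M, τ)` as a left `P`-module is `d`. -/
def HasIndex (M : VonNeumannAlgebra H) (τ : M.toStarSubalgebra → ℂ) (P : VonNeumannAlgebra H)
    (d : ℝ≥0∞) : Prop :=
  ∃ (K : Type) (_ : NormedAddCommGroup K) (_ : InnerProductSpace ℂ K) (_ : CompleteSpace K)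
    (π : M.toStarSubalgebra →⋆ₐ[ℂ] (K →L[ℂ] K)) (Ω : K) (I : Type) (ξ : I → K)
    (e : I → M.toStarSubalgebra), IsL2 M τ π Ω ∧ IsDecomposition M τ P π ξ e ∧
      ∑' i, ENNReal.ofReal (τ (e i)).re = d

/-- `M` has a subfactor of Jones index `d`. -/
def HasSubfactorOfIndex (M : VonNeumannAlgebra H) (d : ℝ≥0∞) : Prop :=
  ∃ (τ : M.toStarSubalgebra → ℂ) (P : VonNeumannAlgebra H), IsTrace M τ ∧ (∀ x ∈ P, x ∈ M) ∧
    HasTrivialCentre P ∧ HasIndex M τ P d

section proofs

open Pool.Agent.Helper278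

theorem iio {M : VonNeumannAlgebra H} {τ : M.toStarSubalgebra → ℂ} (h : IsII1Factor M)
    (hτ : IsTrace M τ) : IsIIOneFactor M τ :=
  ⟨h.factor, h.infinite, ⟨hτ.one, hτ.tracial, hτ.faithful⟩, hτ.normal⟩

theorem transfer {M N : VonNeumannAlgebra H} (hM : IsII1Factor M) (hN : IsII1Factor N)
    (θ : M.toStarSubalgebra ≃⋆ₐ[ℂ] N.toStarSubalgebra) {d : ℝ≥0∞}
    (h : HasSubfactorOfIndex M d) : HasSubfactorOfIndex N d := by
  obtain ⟨τ, P, hτ, hP, hPc, K, i1, i2, i3, π, Ω, I, ξ, e, hG, hD, hd⟩ := h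
  obtain ⟨σ, hσ⟩ := hN.trace
  obtain ⟨Q, hQ, hPQ⟩ := Pool.Agent.W393.KKS.exists_image M N τ σ (iio hM hτ) (iio hN hσ) θ P hP
  have htr := Pool.Agent.W393.KKS.trace_iso M N τ σ (iio hM hτ) (iio hN hσ) θ
  refine ⟨σ, Q, hσ, hQ, ?_, K, i1, i2, i3,
    π.comp (θ.symm : N.toStarSubalgebra →⋆ₐ[ℂ] M.toStarSubalgebra), Ω, I, ξ, fun i => θ (e i),
    ?_, ?_, ?_⟩
  · intro z hz hzc
    obtain ⟨x, hx⟩ : ∃ x : M.toStarSubalgebra, θ x = ⟨z, hQ z hz⟩ := θ.surjective _
    have hxP : (x : H →L[ℂ] H) ∈ P := by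
      rw [← hPQ, hx]; exact hz
    obtain ⟨c, hc⟩ := hPc x hxP (fun y hy => by
      have h1 := hzc _ ((hPQ ⟨y, hP y hy⟩).2 hy)
      have h2 : θ x * θ ⟨y, hP y hy⟩ = θ ⟨y, hP y hy⟩ * θ x := by
        rw [hx]
        exact Subtype.ext h1
      rw [← map_mul, ← map_mul] at h2
      exact congrArg Subtype.val (θ.injective h2))
    refine ⟨c, ?_⟩
    have h3 : x = c • (1 : M.toStarSubalgebra) := Subtype.ext hc
    rw [h3, map_smul, map_one] at hx
    exact (congrArg Subtype.val hx).symm
  · refine ⟨fun x => ?_, fun v ε hε => ?_⟩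
    · show ⟪Ω, π (θ.symm x) Ω⟫_ℂ = σ x
      rw [hG.state, ← htr, θ.apply_symm_apply]
    · obtain ⟨x, hx⟩ := hG.cyclic v ε hε
      refine ⟨θ x, ?_⟩
      show ‖v - π (θ.symm (θ x)) Ω‖ ≤ ε
      rw [θ.symm_apply_apply]; exact hx
  · refine ⟨fun i => (hPQ _).2 (hD.mem i), fun i => ?_, fun i x hx => ?_,
      fun i j hij x hx => ?_, fun v hv => ?_⟩
    · rw [← map_star, (hD.projection i).1, ← map_mul, (hD.projection i).2]
      exact ⟨rfl, rfl⟩
    · obtain ⟨y, hy⟩ : ∃ y, θ y = x := θ.surjective x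
      subst hy
      show ⟪ξ i, π (θ.symm (θ y)) (ξ i)⟫_ℂ = σ (θ y * θ (e i))
      rw [θ.symm_apply_apply, ← map_mul, htr]
      exact hD.state i y ((hPQ y).1 hx)
    · obtain ⟨y, hy⟩ : ∃ y, θ y = x := θ.surjective x
      subst hy
      show ⟪ξ i, π (θ.symm (θ y)) (ξ j)⟫_ℂ = 0
      rw [θ.symm_apply_apply]
      exact hD.orthogonal i j hij y ((hPQ y).1 hx)
    · refine hD.total v fun i x hx => ?_
      have := hv i (θ x) ((hPQ x).2 hx)
      change ⟪π (θ.symm (θ x)) (ξ i), v⟫_ℂ = 0 at this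
      rwa [θ.symm_apply_apply] at this
  · rw [← hd]
    refine tsum_congr fun i => ?_
    rw [htr]

end proofs

/-- **Close II₁ factors are *-isomorphic and have subfactors of the same indices.** -/
theorem result : ∃ δ : ℝ, 0 < δ ∧ ∀ (H : Type) [NormedAddCommGroup H] [InnerProductSpace ℂ H]
    [CompleteSpace H] (M N : VonNeumannAlgebra H), IsII1Factor M → IsII1Factor N →
    kkDist M N < δ → StarIsomorphic M N ∧
      ∀ d : ℝ≥0∞, HasSubfactorOfIndex M d → HasSubfactorOfIndex N d := by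
  obtain ⟨δ, hδ, h⟩ := Pool.Agent.H256.KKS.kk
  refine ⟨δ, hδ, ?_⟩
  intro H _ _ _ M N hM hN hd
  obtain ⟨τ, hτ⟩ := hM.trace
  obtain ⟨σ, hσ⟩ := hN.trace
  obtain ⟨Φ⟩ := h H M N τ σ (iio hM hτ) (iio hN hσ) hd
  exact ⟨⟨Φ⟩, fun d hd => transfer hM hN Φ hd⟩

end Pool.Agent.Results.MP_323167_an.SubfactorsOfCloseFactors
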